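import Mathlib

namespace H316RatDiff3

open Filter Topology

set_option maxHeartbeats 1000000

/-- the third iterate expression -/
noncomputable def Hf (g a b c : ℝ) : ℝ := (g + b / c) / (g + c / (g + a / b))

theorem mono_c {g J c d S : ℝ} (hg : 0 < g) (hI : 0 < J) (hIc : J ≤ c) (hd : 0 < d) (hS : 0 < S) :
    J^2 * d / (g * J * d + S) ≤ c^2 * d / (g * c * d + S) := by
  have hc : 0 < c := lt_of_lt_of_le hI hIc
  rw [div_le_div_iff₀ (by positivity) (by positivity)]
  have h1 : 0 ≤ g * c * J * d^2 * (c - J) := mul_nonneg (by positivity) (by linarith)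
  have h2 : 0 ≤ d * S * ((c - J) * (c + J)) := by
    apply mul_nonneg (by positivity)
    exact mul_nonneg (by linarith) (by linarith)
  nlinarith [h1, h2]

theorem Hf_eq {g a b c : ℝ} (hg : 0 < g) (ha : 0 < a) (hb : 0 < b) (hc : 0 < c) :
    Hf g a b c = (g + b / c) / (g + c^2 * (b/c) / (g * c * (b/c) + a)) := by
  unfold Hf
  have : c / (g + a / b) = c^2 * (b/c) / (g * c * (b/c) + a) := by
    field_simp
  rw [this]

theorem upper {g a b c J S : ℝ} (hg : 0 < g) (ha : 0 < a) (haS : a ≤ S) (hb : 0 < b)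
    (hI : 0 < J) (hIc : J ≤ c) (hgS : g < S) (hd : b / c ≤ S - g)
    (hcond : 0 ≤ S - J^2 + g * J * ((S - g) + b / c)) :
    Hf g a b c ≤ S / (g + J^2 * (S - g) / (g * J * (S - g) + S)) := by
  have hS : 0 < S := by linarith
  have hc : 0 < c := lt_of_lt_of_le hI hIc
  rw [Hf_eq hg ha hb hc]
  have hd0 : 0 < b / c := div_pos hb hc
  generalize b / c = d at *
  obtain ⟨v, rfl⟩ : ∃ v, S = g + v := ⟨S - g, by ring⟩
  have hv : 0 < v := by linarith
  have e0 : g + v - g = v := by ring
  rw [e0] at *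
  have h1 : (g + d) / (g + c^2 * d / (g * c * d + a)) ≤ (g + d) / (g + J^2 * d / (g * J * d + (g+v))) := by
    apply div_le_div_of_nonneg_left (by positivity) (by positivity)
    have h2 : c^2 * d / (g * c * d + (g+v)) ≤ c^2 * d / (g * c * d + a) := by
      apply div_le_div_of_nonneg_left (by positivity) (by positivity) (by linarith)
    have h3 := mono_c hg hI hIc hd0 hS
    linarith
  refine h1.trans ?_
  rw [div_le_div_iff₀ (by positivity) (by positivity)]
  have key : (g + v) * (g + J^2 * d / (g * J * d + (g+v))) - (g + d) * (g + J^2 * v / (g * J * v + (g+v)))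
      = g * (v - d) * (g^2*J^2*v*d + J^3*v*d + (g+v) * ((g+v) - J^2 + g*J*(v+d)))
        / ((g * J * d + (g+v)) * (g * J * v + (g+v))) := by
    field_simp
    ring
  have h5 : 0 ≤ g * (v - d) * (g^2*J^2*v*d + J^3*v*d + (g+v) * ((g+v) - J^2 + g*J*(v+d)))
        / ((g * J * d + (g+v)) * (g * J * v + (g+v))) := by
    apply div_nonneg _ (by positivity)
    apply mul_nonneg (mul_nonneg hg.le (by linarith))
    have : 0 ≤ (g+v) * ((g+v) - J^2 + g*J*(v+d)) := mul_nonneg hS.le (by linarith [hcond, (show g * J * (g + v - g + d) = g * J * (v + d) by ring)])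
    positivity
  linarith

theorem lower {g a b c J S : ℝ} (hg : 0 < g) (hIa : J ≤ a) (hb : 0 < b)
    (hI : 0 < J) (hc : 0 < c) (hcS : c ≤ S) :
    (g + b / c) / (g + S^2 * (b/c) / (g * S * (b/c) + J)) ≤ Hf g a b c := by
  have hS : 0 < S := lt_of_lt_of_le hc hcS
  have ha : 0 < a := lt_of_lt_of_le hI hIa
  rw [Hf_eq hg ha hb hc]
  have hd0 : 0 < b / c := div_pos hb hc
  generalize b / c = d at *
  apply div_le_div_of_nonneg_left (by positivity) (by positivity)
  have h2 : c^2 * d / (g * c * d + a) ≤ c^2 * d / (g * c * d + J) := by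
    apply div_le_div_of_nonneg_left (by positivity) (by positivity) (by linarith)
  have h3 := mono_c hg hc hcS hd0 hI
  linarith

end H316RatDiff3
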