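import Mathlib

namespace H316RatDiff3

set_option maxHeartbeats 1000000

theorem Epos {g u : ℝ} (hg : (5:ℝ)/7 ≤ g) (hg1 : g ≤ 1) (hu0 : 0 ≤ u) (hu : u ≤ 1/2) :
    0 < (217/200)^2 * (u^2 + g*(1+g)*u + (g^3+g-1))
        - (217/200) * (g^2*u + g*(2-g+g^2)) * (u+3/50) - g^2*(u+3/50)^2 := by
  obtain ⟨t, ht⟩ : ∃ t, t = g - 5/7 := ⟨_, rfl⟩
  have ht0 : 0 ≤ t := by linarith
  have ht1 : t ≤ 2/7 := by linarith
  have hgt : g = 5/7 + t := by linarith
  subst hgt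
  nlinarith [mul_nonneg ht0 hu0, mul_nonneg ht0 (sub_nonneg.2 hu), mul_nonneg hu0 (sub_nonneg.2 hu),
    mul_nonneg (mul_nonneg ht0 ht0) hu0, mul_nonneg (mul_nonneg ht0 ht0) (sub_nonneg.2 hu),
    mul_nonneg (mul_nonneg ht0 hu0) (sub_nonneg.2 hu), pow_nonneg ht0 2, pow_nonneg ht0 3,
    sq_nonneg (u - 1/4), mul_nonneg ht0 (sub_nonneg.2 ht1)]

theorem Lpos1 {g u v : ℝ} (hg : (5:ℝ)/7 ≤ g) (hg1 : g ≤ 1) (hu0 : 0 ≤ u) (hu : u ≤ 1/2) (hv : 1 ≤ v) :
    0 < g^3 + g^2*v + g + u*(1-g^2-g^3) - (g^2+2*g)*(217/200 - 3/50*v) - 217/200*v + 3/50*v^2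
      + 779/500*g*(10293/10000 + 7/25*v) := by
  obtain ⟨t, ht⟩ : ∃ t, t = g - 5/7 := ⟨_, rfl⟩
  have ht0 : 0 ≤ t := by linarith
  have ht1 : t ≤ 2/7 := by linarith
  have hgt : g = 5/7 + t := by linarith
  subst hgt
  nlinarith [mul_nonneg ht0 hu0, mul_nonneg ht0 (sub_nonneg.2 hu), mul_nonneg ht0 (sub_nonneg.2 hv),
    mul_nonneg (mul_nonneg ht0 ht0) (sub_nonneg.2 hv), mul_nonneg (mul_nonneg ht0 ht0) (sub_nonneg.2 hu),
    mul_nonneg (pow_nonneg ht0 3) (sub_nonneg.2 hu), pow_nonneg ht0 2, pow_nonneg ht0 3,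
    sq_nonneg (v - 6/5), mul_nonneg ht0 (sub_nonneg.2 ht1), mul_nonneg (pow_nonneg ht0 2) (sub_nonneg.2 ht1)]

theorem Lpos2 {g u v : ℝ} (hg : (5:ℝ)/7 ≤ g) (hg1 : g ≤ 1) (hu0 : 0 ≤ u) (hu : u ≤ 1/2) (hv : 1 ≤ v) :
    0 < g^3 + g^2*v + g + u*(1-g^2-g^3) - (g^2+2*g)*(217/200 - 3/50*v) - 217/200*v + 3/50*v^2
      + 779/500*g*(559/250) := by
  obtain ⟨t, ht⟩ : ∃ t, t = g - 5/7 := ⟨_, rfl⟩
  have ht0 : 0 ≤ t := by linarith
  have ht1 : t ≤ 2/7 := by linarith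
  have hgt : g = 5/7 + t := by linarith
  subst hgt
  nlinarith [mul_nonneg ht0 hu0, mul_nonneg ht0 (sub_nonneg.2 hu), mul_nonneg ht0 (sub_nonneg.2 hv),
    mul_nonneg (mul_nonneg ht0 ht0) (sub_nonneg.2 hv), mul_nonneg (mul_nonneg ht0 ht0) (sub_nonneg.2 hu),
    mul_nonneg (pow_nonneg ht0 3) (sub_nonneg.2 hu), pow_nonneg ht0 2, pow_nonneg ht0 3,
    sq_nonneg (v - 19/5), mul_nonneg ht0 (sub_nonneg.2 ht1), mul_nonneg (pow_nonneg ht0 2) (sub_nonneg.2 ht1)]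

/-- consequence of the upper inequality: `v` is at most about `1.085/(u+0.06)` -/
theorem vbound {g u v : ℝ} (hg : (5:ℝ)/7 ≤ g) (hg1 : g ≤ 1) (hu0 : 0 ≤ u) (hu : u ≤ 1/2) (hv : 1 ≤ v)
    (A : v^2*(u^2+g*(1+g)*u+(g^3+g-1)) ≤ v*(g^2*u+g*(2-g+g^2)) + g^2) :
    v * (u + 3/50) ≤ 217/200 := by
  have hg0 : 0 < g := by linarith
  have hE := Epos hg hg1 hu0 hu
  by_contra hcon
  push Not at hcon
  set a : ℝ := u^2+g*(1+g)*u+(g^3+g-1) with ha
  set b : ℝ := g^2*u+g*(2-g+g^2) with hb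
  set p : ℝ := u + 3/50 with hp
  have hp0 : 0 < p := by rw [hp]; linarith
  have hb0 : 0 ≤ b := by rw [hb]; nlinarith [sq_nonneg g]
  set x : ℝ := v * p with hx
  -- A * p^2
  have A2 : x^2*a ≤ x*b*p + g^2*p^2 := by
    have := mul_le_mul_of_nonneg_right A (sq_nonneg p)
    have e1 : v^2*a*p^2 = x^2*a := by rw [hx]; ring
    have e2 : (v*b+g^2)*p^2 = x*b*p + g^2*p^2 := by rw [hx]; ring
    linarith
  have h1 : 0 < (217/200:ℝ)*a - b*p := by
    have : 0 ≤ g^2*p^2 := by positivity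
    nlinarith
  have ha0 : 0 < a := by
    have : 0 ≤ b*p := by positivity
    linarith
  have h2 : x^2*a - x*b*p - g^2*p^2 = (x-217/200)*((x+217/200)*a-b*p)
      + ((217/200)^2*a - (217/200)*b*p - g^2*p^2) := by ring
  have h3 : 0 ≤ (x-217/200)*((x+217/200)*a-b*p) := by
    apply mul_nonneg (by linarith)
    have : 0 ≤ x * a := by
      apply mul_nonneg _ ha0.le
      linarith
    linarith
  linarith

theorem Gpos {g u v r : ℝ} (hg : (5:ℝ)/7 ≤ g) (hg1 : g ≤ 1) (hu0 : 0 ≤ u) (hu : u ≤ 1/2) (hv : 1 ≤ v)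
    (hvu : v * (u + 3/50) ≤ 217/200) (hr0 : 0 ≤ r) (hr : r^2 = 5/7 + v) :
    u*(g+v)^2 < g^2*(1-u)*(g+v) + g + u + 779/500*g*r := by
  have hg0 : 0 < g := by linarith
  have hv0 : 0 < v := by linarith
  have huv : u * v ≤ 217/200 - 3/50*v := by linarith
  have h1 : u * v^2 ≤ 217/200*v - 3/50*v^2 := by
    have := mul_le_mul_of_nonneg_right huv hv0.le
    nlinarith
  have h2 : g^2 * (u*v) ≤ g^2 * (217/200 - 3/50*v) := mul_le_mul_of_nonneg_left huv (sq_nonneg g)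
  have h3 : 2*g*(u*v) ≤ 2*g*(217/200 - 3/50*v) := mul_le_mul_of_nonneg_left huv (by linarith)
  rcases le_or_gt v (43/10) with hv2 | hv2
  · have hrl : 10293/10000 + 7/25*v ≤ r := by
      by_contra h
      push Not at h
      have : r^2 < (10293/10000 + 7/25*v)^2 := by nlinarith
      nlinarith
    have h4 : 779/500*g*(10293/10000 + 7/25*v) ≤ 779/500*g*r :=
      mul_le_mul_of_nonneg_left hrl (by positivity)
    have := Lpos1 hg hg1 hu0 hu hv
    nlinarith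
  · have hrl : 559/250 ≤ r := by
      by_contra h
      push Not at h
      have : r^2 < (559/250)^2 := by nlinarith
      nlinarith
    have h4 : 779/500*g*(559/250) ≤ 779/500*g*r :=
      mul_le_mul_of_nonneg_left hrl (by positivity)
    have := Lpos2 hg hg1 hu0 hu hv
    nlinarith

/-- the algebraic heart, in the variables `u = I - g`, `v = S - g`. -/
theorem core {g u v d : ℝ} (hg : (5:ℝ)/7 ≤ g) (hg1 : g < 1) (hu0 : 0 < u) (huv : u < v)
    (hdu : u ≤ d)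
    (f1 : v * (g + u) ≤ g + v) (f2 : g + u ≤ u * (g + v))
    (A : (g+u)^2*v^2 ≤ (g+(1-g)*v)*(g*(g+u)*v+(g+v)))
    (B : (d + g*(1-u))*(g*(g+v)*d+(g+u)) ≤ u*(g+v)^2*d) : False := by
  have hg0 : 0 < g := by linarith
  have hd0 : 0 < d := by linarith
  have hv0 : 0 < v := by linarith
  have hu1 : u < 1 := by
    by_contra h
    push Not at h
    nlinarith
  have hv1 : 1 < v := by
    by_contra h
    push Not at h
    nlinarith
  have hα : 0 < g^3+g-1 := by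
    obtain ⟨t, ht⟩ : ∃ t, t = g - 5/7 := ⟨_, rfl⟩
    have ht0 : 0 ≤ t := by linarith
    have hgt : g = 5/7 + t := by linarith
    rw [hgt]
    have := pow_nonneg ht0 2
    have := pow_nonneg ht0 3
    nlinarith
  have hg2 : 1 < 2*g^2 := by nlinarith
  -- A implies uv < 1
  have huv1 : u * v < 1 := by
    by_contra h
    push Not at h
    have hz : g*v + 1 ≤ (g+u)*v := by linarith
    have hP : 0 < (v-1)*((g^3+g-1)*v+(2*g^2-1)) := by
      apply mul_pos (by linarith)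
      have : 0 < (g^3+g-1)*v := mul_pos hα hv0
      linarith
    have e : (v-1)*((g^3+g-1)*v+(2*g^2-1)) = (g*v+1)^2 - (g+(1-g)*v)*(g*(g*v+1)+(g+v)) := by ring
    have e2 : ((g+u)*v)^2 - (g+(1-g)*v)*(g*((g+u)*v)+(g+v)) - ((g*v+1)^2 - (g+(1-g)*v)*(g*(g*v+1)+(g+v)))
        = ((g+u)*v - (g*v+1)) * ((g+u)*v + (g*v+1) - g*(g+(1-g)*v)) := by ring
    have h3 : 0 ≤ ((g+u)*v - (g*v+1)) * ((g+u)*v + (g*v+1) - g*(g+(1-g)*v)) := by
      apply mul_nonneg (by linarith)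
      have e5 : (g+u)*v + (g*v+1) - g*(g+(1-g)*v) = (1-g)*(1+g) + v*g*(1+g) + u*v := by ring
      rw [e5]
      have : 0 < u * v := mul_pos hu0 hv0
      have : 0 < (1-g)*(1+g) := mul_pos (by linarith) (by linarith)
      positivity
    have e6 : (g+u)^2*v^2 - (g+(1-g)*v)*(g*(g+u)*v+(g+v))
        = ((g+u)*v)^2 - (g+(1-g)*v)*(g*((g+u)*v)+(g+v)) := by ring
    linarith [A]
  rcases le_or_gt ((g+u)*(1-u)) (u^2*(g+v)) with hc | hc
  · -- case 1
    have hB1 : (u + g*(1-u))*(g*(g+v)*u+(g+u)) ≤ u*(g+v)^2*u := by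
      -- the function g S d + g (1-u) I / d is increasing from u on
      have h1 : d * ((u + g*(1-u))*(g*(g+v)*u+(g+u)) - u*(g+v)^2*u)
          = u * ((d + g*(1-u))*(g*(g+v)*d+(g+u)) - u*(g+v)^2*d)
            - g * (d-u) * ((g+v)*d*u - (1-u)*(g+u)) := by ring
      have h2 : 0 ≤ (g+v)*d*u - (1-u)*(g+u) := by
        have : (g+v)*u*u ≤ (g+v)*d*u := by
          apply mul_le_mul_of_nonneg_right _ hu0.le
          exact mul_le_mul_of_nonneg_left hdu (by linarith)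
        nlinarith
      have h3 : 0 ≤ g * (d-u) * ((g+v)*d*u - (1-u)*(g+u)) :=
        mul_nonneg (mul_nonneg hg0.le (by linarith)) h2
      have h4 : u * ((d + g*(1-u))*(g*(g+v)*d+(g+u)) - u*(g+v)^2*d) ≤ 0 :=
        mul_nonpos_of_nonneg_of_nonpos hu0.le (by linarith)
      have h5 : d * ((u + g*(1-u))*(g*(g+v)*u+(g+u)) - u*(g+v)^2*u) ≤ 0 := by linarith
      by_contra h6
      push Not at h6
      have : 0 < d * ((u + g*(1-u))*(g*(g+v)*u+(g+u)) - u*(g+v)^2*u) := mul_pos hd0 (by linarith)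
      linarith
    -- X = u (g+v) < g u + 1
    have hX : u*(g+v) < g*u + 1 := by linarith
    have hX0 : 0 < u*(g+v) := mul_pos hu0 (by linarith)
    have e : (g*u+1)^2 - (g+(1-g)*u)*(g*(g*u+1)+(g+u)) = (u-1)*((g^3+g-1)*u+(2*g^2-1)) := by ring
    have hP : (u-1)*((g^3+g-1)*u+(2*g^2-1)) < 0 := by
      apply mul_neg_of_neg_of_pos (by linarith)
      have : 0 < (g^3+g-1)*u := mul_pos hα hu0
      linarith
    have e2 : (g*u+1)^2 - (g+(1-g)*u)*(g*(g*u+1)+(g+u))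
        - ((u*(g+v))^2 - (g+(1-g)*u)*(g*(u*(g+v))+(g+u)))
        = ((g*u+1) - u*(g+v)) * ((g*u+1) + u*(g+v) - g*(g+(1-g)*u)) := by ring
    have h3 : 0 ≤ ((g*u+1) - u*(g+v)) * ((g*u+1) + u*(g+v) - g*(g+(1-g)*u)) := by
      apply mul_nonneg (by linarith)
      have e5 : (g*u+1) + u*(g+v) - g*(g+(1-g)*u) = (1-g)*(1+g) + u*g*(1+g) + u*v := by ring
      rw [e5]
      have : 0 < (1-g)*(1+g) := mul_pos (by linarith) (by linarith)
      positivity
    have e6 : (u + g*(1-u))*(g*(g+v)*u+(g+u)) - u*(g+v)^2*u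
        = -((u*(g+v))^2 - (g+(1-g)*u)*(g*(u*(g+v))+(g+u))) := by ring
    linarith [hB1]
  · -- case 2
    have hu2 : u ≤ 1/2 := by
      have h1 : u*(g+u) ≤ u^2*(g+v) := by
        have := mul_le_mul_of_nonneg_left f2 hu0.le
        nlinarith
      have h2 : u*(g+u) < (1-u)*(g+u) := by nlinarith
      have h3 : u < 1-u := lt_of_mul_lt_mul_right h2 (by linarith)
      linarith
    have hV := vbound hg hg1.le hu0.le hu2 hv1.le (by nlinarith [A])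
    obtain ⟨r, hr0, hr⟩ : ∃ r : ℝ, 0 ≤ r ∧ r^2 = 5/7 + v :=
      ⟨Real.sqrt (5/7+v), Real.sqrt_nonneg _, Real.sq_sqrt (by linarith)⟩
    have hG := Gpos hg hg1.le hu0.le hu2 hv1.le hV hr0 hr
    have hw : (779/1000:ℝ)^2 ≤ (1-u)*(g+u) := by
      have h1 : (1-u)*(5/7+u) ≤ (1-u)*(g+u) := mul_le_mul_of_nonneg_left (by linarith) (by linarith)
      nlinarith [mul_nonneg hu0.le (sub_nonneg.2 hu2)]
    have h1 : 779/500*r*d ≤ (g+v)*d^2 + (1-u)*(g+u) := by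
      have h2 : (5/7+v)*d^2 ≤ (g+v)*d^2 := mul_le_mul_of_nonneg_right (by linarith) (sq_nonneg d)
      rw [← hr] at h2
      nlinarith [sq_nonneg (r*d - 779/1000)]
    have h3 := mul_le_mul_of_nonneg_left h1 hg0.le
    have h4 := mul_lt_mul_of_pos_right hG hd0
    nlinarith [B, h3, h4]

end H316RatDiff3
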