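import Pool.Agent.H316.RatDiff3
import Pool.Agent.H316.RatDiff4

namespace H316RatDiff3

open Filter Topology

set_option maxHeartbeats 1000000

variable {g : ℝ} {y : ℕ → ℝ}

theorem step7 (hy : ∀ n, y (n+3) = g + y n / y (n+1)) (n : ℕ) :
    y (n+7) = g + Hf g (y n) (y (n+1)) (y (n+2)) := by
  have h7 : y (n+7) = g + y (n+4) / y (n+5) := hy (n+4)
  have h5 : y (n+5) = g + y (n+2) / y (n+3) := hy (n+2)
  have h4 : y (n+4) = g + y (n+1) / y (n+2) := hy (n+1)
  have h3 : y (n+3) = g + y n / y (n+1) := hy n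
  rw [h7, h5, h4, h3]
  rfl

theorem gt_g (hpos : ∀ n, 0 < y n) (hy : ∀ n, y (n+3) = g + y n / y (n+1)) (n : ℕ) :
    g < y (n+3) := by
  rw [hy n]
  have := div_pos (hpos n) (hpos (n+1))
  linarith

theorem bounded (hg0 : 0 < g) (hg1 : g < 1) (hα : 0 < g^3+g-1)
    (hpos : ∀ n, 0 < y n) (hy : ∀ n, y (n+3) = g + y n / y (n+1)) :
    ∃ M, ∀ n, y n ≤ M := by
  obtain ⟨M1, hM1⟩ : ∃ M1, ∀ n < 10, y n ≤ M1 := by
    obtain ⟨M1, hM1⟩ := (((Finset.range 10).image y).exists_le)
    exact ⟨M1, fun n hn => hM1 _ (Finset.mem_image_of_mem _ (Finset.mem_range.2 hn))⟩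
  -- threshold
  set K : ℝ := (g^3 + 2*g) / (g^3+g-1) with hK
  set v : ℝ := max (max (M1 - g) K) 1 with hv
  have hv1 : 1 ≤ v := le_max_right _ _
  have hvK : K ≤ v := (le_max_right _ _).trans (le_max_left _ _)
  have hvM : M1 - g ≤ v := (le_max_left _ _).trans (le_max_left _ _)
  have hv0 : 0 < v := by linarith
  refine ⟨g + v, fun n => ?_⟩
  have hstep : g + (g+v) / (g + g^2 * ((g+v)-g) / (g * g * ((g+v)-g) + (g+v))) ≤ g + v := by
    have h1 : g^3 + 2*g ≤ v * (g^3+g-1) := by
      rw [hK, div_le_iff₀ hα] at hvK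
      exact hvK
    have e : g + v - g = v := by ring
    rw [e]
    have h2 : (g+v) / (g + g^2 * v / (g * g * v + (g+v))) ≤ v := by
      rw [div_le_iff₀ (by positivity)]
      have e2 : v * (g + g^2 * v / (g * g * v + (g+v))) - (g+v)
          = (v * (v * (g^3+g-1) - (g^3 + 2*g)) + g^2*(v-1)) / (g * g * v + (g+v)) := by
        field_simp
        ring
      have h3 : 0 ≤ (v * (v * (g^3+g-1) - (g^3 + 2*g)) + g^2*(v-1)) / (g * g * v + (g+v)) := by
        apply div_nonneg _ (by positivity)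
        apply add_nonneg
        · exact mul_nonneg hv0.le (by linarith)
        · exact mul_nonneg (by positivity) (by linarith)
      linarith
    linarith
  induction n using Nat.strong_induction_on with
  | _ n ih =>
    by_cases hn : n < 10
    · have := hM1 n hn
      linarith
    · obtain ⟨m, rfl⟩ : ∃ m, n = m + 7 := ⟨n - 7, by omega⟩
      have h2 : g ≤ y (m+2) := by
        have := gt_g hpos hy (m-1)
        have e : m - 1 + 3 = m + 2 := by omega
        rw [e] at this
        exact this.le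
      have h4 : y (m+4) = g + y (m+1) / y (m+2) := hy (m+1)
      have h5 : y (m+4) ≤ g + v := ih (m+4) (by omega)
      have hd0 : 0 < y (m+1) / y (m+2) := div_pos (hpos _) (hpos _)
      rw [step7 hy m]
      have := upper (g := g) (a := y m) (b := y (m+1)) (c := y (m+2)) (J := g) (S := g+v) hg0
        (hpos _) (ih m (by omega)) (hpos _) hg0 h2 (by linarith) (by linarith)
        (by
          have h6 : 0 ≤ g * g * ((g + v - g) + y (m+1) / y (m+2)) := by
            apply mul_nonneg (by positivity)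
            linarith
          have h7 : g^2 ≤ g := by nlinarith
          linarith)
      linarith

/-- limits along an ultrafilter -/
theorem ultra_lim (J S : ℝ) (U : Ultrafilter ℕ) (hU : (U : Filter ℕ) ≤ atTop) {m M : ℝ}
    (hb : ∀ n, m ≤ y n ∧ y n ≤ M)
    (hJ : ∀ e, e < J → ∀ᶠ n in atTop, e < y n) (hS : ∀ e, S < e → ∀ᶠ n in atTop, y n < e) (k : ℕ) :
    ∃ a, J ≤ a ∧ a ≤ S ∧ Tendsto (fun n => y (n+k)) U (𝓝 a) := by
  have hc : IsCompact (Set.Icc m M) := isCompact_Icc
  have := hc.ultrafilter_le_nhds (U.map (fun n => y (n+k))) (by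
    rw [Filter.le_principal_iff]
    have h : ∀ᶠ n in (U : Filter ℕ), y (n+k) ∈ Set.Icc m M :=
      Filter.Eventually.of_forall (fun n => (⟨(hb _).1, (hb _).2⟩ : y (n+k) ∈ Set.Icc m M))
    exact h)
  obtain ⟨a, -, ha⟩ := this
  have ht : Tendsto (fun n => y (n+k)) U (𝓝 a) := ha
  have hk : Tendsto (fun n : ℕ => (n + k : ℕ)) (U : Filter ℕ) (atTop : Filter ℕ) :=
    (tendsto_add_atTop_nat k).mono_left hU
  refine ⟨a, ?_, ?_, ht⟩
  · by_contra h
    push Not at h
    obtain ⟨e, he1, he2⟩ := exists_between h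
    have h1 : ∀ᶠ n in (U : Filter ℕ), e < y (n+k) := hk.eventually (hJ e he2)
    have : e ≤ a := ge_of_tendsto ht (h1.mono fun n hn => hn.le)
    linarith
  · by_contra h
    push Not at h
    obtain ⟨e, he1, he2⟩ := exists_between h
    have h1 : ∀ᶠ n in (U : Filter ℕ), y (n+k) < e := hk.eventually (hS e he1)
    have : a ≤ e := le_of_tendsto ht (h1.mono fun n hn => hn.le)
    linarith

theorem exists_ultra {z : ℕ → ℝ} {s : ℝ} (h : ∀ ε > 0, ∃ᶠ n in atTop, |z n - s| < ε) :
    ∃ U : Ultrafilter ℕ, (U : Filter ℕ) ≤ atTop ∧ Tendsto z U (𝓝 s) := by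
  have hm : MapClusterPt s atTop z := by
    rw [mapClusterPt_iff_frequently]
    intro V hV
    obtain ⟨ε, hε, hball⟩ := Metric.mem_nhds_iff.1 hV
    exact (h ε hε).mono fun n hn => hball (by rw [Metric.mem_ball, Real.dist_eq]; exact hn)
  obtain ⟨U, hU, ht⟩ := mapClusterPt_iff_ultrafilter.1 hm
  exact ⟨U, hU, ht⟩

theorem conv (hg : (5:ℝ)/7 ≤ g) (hg1 : g < 1)
    (hpos : ∀ n, 0 < y n) (hy : ∀ n, y (n+3) = g + y n / y (n+1)) :
    Tendsto y atTop (𝓝 (g+1)) := by
  have hg0 : 0 < g := by linarith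
  have hα : 0 < g^3+g-1 := by
    obtain ⟨t, ht⟩ : ∃ t, t = g - 5/7 := ⟨_, rfl⟩
    have ht0 : 0 ≤ t := by linarith
    have hgt : g = 5/7 + t := by linarith
    rw [hgt]
    have := pow_nonneg ht0 2
    have := pow_nonneg ht0 3
    nlinarith
  obtain ⟨M, hM⟩ := bounded hg0 hg1 hα hpos hy
  have hbdd : ∀ n, 0 ≤ y n ∧ y n ≤ M := fun n => ⟨(hpos n).le, hM n⟩
  have hbU : IsBoundedUnder (· ≤ ·) atTop y := isBoundedUnder_of ⟨M, hM⟩
  have hbL : IsBoundedUnder (· ≥ ·) atTop y := isBoundedUnder_of ⟨0, fun n => (hpos n).le⟩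
  set S := limsup y atTop with hSdef
  set J := liminf y atTop with hJdef
  have hJS : J ≤ S := liminf_le_limsup hbU hbL
  have hS : ∀ e, S < e → ∀ᶠ n in atTop, y n < e := fun e he =>
    eventually_lt_of_limsup_lt he hbU
  have hJ : ∀ e, e < J → ∀ᶠ n in atTop, e < y n := fun e he =>
    eventually_lt_of_lt_liminf he hbL
  have fS : ∀ e, e < S → ∃ᶠ n in atTop, e < y n := fun e he =>
    frequently_lt_of_lt_limsup (hbL.isCoboundedUnder_flip) he
  have fJ : ∀ e, J < e → ∃ᶠ n in atTop, y n < e := fun e he =>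
    frequently_lt_of_liminf_lt (hbU.isCoboundedUnder_flip) he
  have shiftf : ∀ {P : ℕ → Prop}, (∃ᶠ n in atTop, P n) → ∃ᶠ n in atTop, P (n+7) := by
    intro P hP
    rw [frequently_atTop] at hP ⊢
    intro a
    obtain ⟨b, hb, hPb⟩ := hP (a+7)
    exact ⟨b-7, by omega, by rwa [Nat.sub_add_cancel (by omega)]⟩
  have shifte : ∀ {P : ℕ → Prop}, (∀ᶠ n in atTop, P n) → ∀ᶠ n in atTop, P (n+7) := by
    intro P hP
    exact (tendsto_add_atTop_nat 7).eventually hP
  -- ultrafilters
  obtain ⟨U1, hU1, ht1⟩ := exists_ultra (z := fun n => y (n+7)) (s := S) (by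
    intro ε hε
    have h1 := shiftf (fS (S-ε) (by linarith))
    have h2 := shifte (hS (S+ε) (by linarith))
    exact (h1.and_eventually h2).mono fun n hn => by
      rw [abs_lt]; constructor <;> linarith [hn.1, hn.2])
  obtain ⟨U2, hU2, ht2⟩ := exists_ultra (z := fun n => y (n+7)) (s := J) (by
    intro ε hε
    have h1 := shiftf (fJ (J+ε) (by linarith))
    have h2 := shifte (hJ (J-ε) (by linarith))
    exact (h1.and_eventually h2).mono fun n hn => by
      rw [abs_lt]; constructor <;> linarith [hn.1, hn.2])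
  have hJg0 : g ≤ J := by
    by_contra h
    push Not at h
    obtain ⟨e, he1, he2⟩ := exists_between h
    have h1 := fJ e he1
    rw [frequently_atTop] at h1
    obtain ⟨n, hn, hn2⟩ := h1 3
    have := gt_g hpos hy (n-3)
    rw [Nat.sub_add_cancel hn] at this
    linarith
  have hJ0 : 0 < J := by linarith
  have hS0 : 0 < S := by linarith
  -- limits along U1
  obtain ⟨a0, ha0J, ha0S, ta0⟩ := ultra_lim J S U1 hU1 hbdd hJ hS 0
  obtain ⟨a1, ha1J, ha1S, ta1⟩ := ultra_lim J S U1 hU1 hbdd hJ hS 1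
  obtain ⟨a2, ha2J, ha2S, ta2⟩ := ultra_lim J S U1 hU1 hbdd hJ hS 2
  obtain ⟨a4, ha4J, ha4S, ta4⟩ := ultra_lim J S U1 hU1 hbdd hJ hS 4
  obtain ⟨a5, ha5J, ha5S, ta5⟩ := ultra_lim J S U1 hU1 hbdd hJ hS 5
  obtain ⟨b0, hb0J, hb0S, tb0⟩ := ultra_lim J S U2 hU2 hbdd hJ hS 0
  obtain ⟨b1, hb1J, hb1S, tb1⟩ := ultra_lim J S U2 hU2 hbdd hJ hS 1
  obtain ⟨b2, hb2J, hb2S, tb2⟩ := ultra_lim J S U2 hU2 hbdd hJ hS 2
  obtain ⟨b4, hb4J, hb4S, tb4⟩ := ultra_lim J S U2 hU2 hbdd hJ hS 4
  obtain ⟨b5, hb5J, hb5S, tb5⟩ := ultra_lim J S U2 hU2 hbdd hJ hS 5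
  have limH : ∀ (U : Ultrafilter ℕ) (a b c : ℝ), J ≤ a → J ≤ b → J ≤ c →
      Tendsto (fun n => y (n+0)) U (𝓝 a) → Tendsto (fun n => y (n+1)) U (𝓝 b) →
      Tendsto (fun n => y (n+2)) U (𝓝 c) →
      Tendsto (fun n => y (n+7)) U (𝓝 (g + Hf g a b c)) := by
    intro U a b c ha hb hc ta tb tc
    have ha' : 0 < a := by linarith
    have hb' : 0 < b := by linarith
    have hc' : 0 < c := by linarith
    have e : (fun n => y (n+7)) = fun n => g + Hf g (y (n+0)) (y (n+1)) (y (n+2)) := by
      funext n; exact step7 hy n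
    rw [e]
    unfold Hf
    refine Tendsto.const_add g (Tendsto.div (Tendsto.const_add g (tb.div tc hc'.ne'))
      (Tendsto.const_add g (tc.div (Tendsto.const_add g (ta.div tb hb'.ne')) ?_)) ?_)
    · positivity
    · positivity
  have lim1 : ∀ (U : Ultrafilter ℕ) (a b : ℝ), J ≤ a → J ≤ b →
      Tendsto (fun n => y (n+4)) U (𝓝 a) → Tendsto (fun n => y (n+5)) U (𝓝 b) →
      Tendsto (fun n => y (n+7)) U (𝓝 (g + a / b)) := by
    intro U a b ha hb ta tb
    have hb' : 0 < b := by linarith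
    have e : (fun n => y (n+7)) = fun n => g + y (n+4) / y (n+5) := by
      funext n; exact hy (n+4)
    rw [e]
    exact Tendsto.const_add g (ta.div tb hb'.ne')
  have lim4 : ∀ (U : Ultrafilter ℕ) (a b : ℝ), J ≤ a → J ≤ b →
      Tendsto (fun n => y (n+1)) U (𝓝 a) → Tendsto (fun n => y (n+2)) U (𝓝 b) →
      Tendsto (fun n => y (n+4)) U (𝓝 (g + a / b)) := by
    intro U a b ha hb ta tb
    have hb' : 0 < b := by linarith
    have e : (fun n => y (n+4)) = fun n => g + y (n+1) / y (n+2) := by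
      funext n; exact hy (n+1)
    rw [e]
    exact Tendsto.const_add g (ta.div tb hb'.ne')
  have eS7 : S = g + Hf g a0 a1 a2 := tendsto_nhds_unique ht1 (limH U1 a0 a1 a2 ha0J ha1J ha2J ta0 ta1 ta2)
  have eJ7 : J = g + Hf g b0 b1 b2 := tendsto_nhds_unique ht2 (limH U2 b0 b1 b2 hb0J hb1J hb2J tb0 tb1 tb2)
  have eS1 : S = g + a4 / a5 := tendsto_nhds_unique ht1 (lim1 U1 a4 a5 ha4J ha5J ta4 ta5)
  have eJ1 : J = g + b4 / b5 := tendsto_nhds_unique ht2 (lim1 U2 b4 b5 hb4J hb5J tb4 tb5)
  have ea4 : a4 = g + a1 / a2 := tendsto_nhds_unique ta4 (lim4 U1 a1 a2 ha1J ha2J ta1 ta2)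
  have eb4 : b4 = g + b1 / b2 := tendsto_nhds_unique tb4 (lim4 U2 b1 b2 hb1J hb2J tb1 tb2)
  have f1 : S ≤ g + S / J := by
    have : a4 / a5 ≤ S / J := div_le_div₀ hS0.le ha4S hJ0 ha5J
    linarith
  have f2 : g + J / S ≤ J := by
    have hb5' : 0 < b5 := by linarith
    have hb4' : 0 ≤ b4 := by linarith
    have : J / S ≤ b4 / b5 := div_le_div₀ hb4' hb4J hb5' hb5S
    linarith
  have hJg : g < J := by
    have := div_pos hJ0 hS0
    linarith
  have hgS : g < S := by linarith
  have f1' : S * J ≤ g * J + S := by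
    have := mul_le_mul_of_nonneg_right f1 hJ0.le
    have e : (g + S / J) * J = g * J + S := by field_simp
    linarith
  have f2' : g * S + J ≤ S * J := by
    have := mul_le_mul_of_nonneg_right f2 hS0.le
    have e : (g + J / S) * S = g * S + J := by field_simp
    linarith
  have hEq : J = S := by
    clear_value J S
    by_contra hne
    have hlt : J < S := lt_of_le_of_ne hJS hne
    have hJle : J ≤ 1 + g := by
      by_contra h
      push Not at h
      nlinarith
    have hSge : 1 + g ≤ S := by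
      by_contra h
      push Not at h
      nlinarith
    have A : S ≤ g + S / (g + J^2 * (S - g) / (g * J * (S - g) + S)) := by
      have := upper (g := g) (a := a0) (b := a1) (c := a2) (J := J) (S := S) hg0
        (by linarith) ha0S (by linarith) hJ0 ha2J hgS (by linarith)
        (by
          have hd : J - g ≤ a1 / a2 := by linarith
          obtain ⟨u, rfl⟩ : ∃ u, J = g + u := ⟨J - g, by ring⟩
          have hu0 : 0 < u := by linarith
          have hu1 : u ≤ 1 := by linarith
          have h1 : g * (g+u) * ((1:ℝ) + u) ≤ g * (g+u) * ((S - g) + a1/a2) := by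
            apply mul_le_mul_of_nonneg_left _ (by positivity)
            linarith
          have h2 : 0 ≤ 1 + g - (g+u)^2 + g * (g+u) * (1+u) := by
            have e : 1 + g - (g+u)^2 + g * (g+u) * (1+u)
              = g * (1 - u) + g * u * g + (1 - u^2) + g * u * u := by ring
            rw [e]
            have : 0 ≤ 1 - u^2 := by nlinarith
            have : 0 ≤ g * (1-u) := mul_nonneg hg0.le (by linarith)
            positivity
          linarith)
      linarith
    have B : g + (g + b1/b2) / (g + S^2 * (b1/b2) / (g * S * (b1/b2) + J)) ≤ J := by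
      have := lower (g := g) (a := b0) (b := b1) (c := b2) (J := J) (S := S) hg0
        hb0J (by linarith) hJ0 (by linarith) hb2S
      linarith
    have hd : J - g ≤ b1 / b2 := by linarith
    have hd0 : 0 < b1 / b2 := by linarith
    generalize b1 / b2 = d at *
    obtain ⟨u, rfl⟩ : ∃ u, J = g + u := ⟨J - g, by ring⟩
    obtain ⟨v, hvS⟩ : ∃ v, S = g + v := ⟨S - g, by ring⟩
    rw [hvS] at f1' f2' A B hlt hS0
    have hu0 : 0 < u := by linarith
    have hv0 : 0 < v := by linarith
    have hV : g + v - g = v := by ring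
    rw [hV] at A
    have A' : (g+u)^2*v^2 ≤ (g+(1-g)*v)*(g*(g+u)*v+(g+v)) := by
      have h1 : v ≤ (g+v) / (g + (g+u)^2 * v / (g * (g+u) * v + (g+v))) := by linarith
      rw [le_div_iff₀ (by positivity)] at h1
      have h2 : v * (g + (g+u)^2 * v / (g * (g+u) * v + (g+v)))
          = v * g + (g+u)^2*v^2 / (g * (g+u) * v + (g+v)) := by
        field_simp
      rw [h2] at h1
      have h3 : (g+u)^2*v^2 / (g * (g+u) * v + (g+v)) ≤ g + (1-g)*v := by linarith
      rwa [div_le_iff₀ (by positivity)] at h3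
    have B' : (d + g*(1-u))*(g*(g+v)*d+(g+u)) ≤ u*(g+v)^2*d := by
      have h1 : (g + d) / (g + (g+v)^2 * d / (g * (g+v) * d + (g+u))) ≤ u := by linarith
      rw [div_le_iff₀ (by positivity)] at h1
      have h2 : u * (g + (g+v)^2 * d / (g * (g+v) * d + (g+u)))
          = u * g + u * (g+v)^2 * d / (g * (g+v) * d + (g+u)) := by
        field_simp
      rw [h2] at h1
      have h3 : d + g*(1-u) ≤ u * (g+v)^2 * d / (g * (g+v) * d + (g+u)) := by linarith
      rwa [le_div_iff₀ (by positivity)] at h3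
    exact core hg hg1 hu0 (by linarith) (by linarith) (by linarith) (by linarith) A' B'
  have hval : S = g + 1 := by
    rw [hEq, div_self hS0.ne'] at f1 f2
    linarith
  have := tendsto_of_liminf_eq_limsup (f := atTop) (u := y) (a := g + 1)
    (by rw [← hJdef, hEq, hval]) (by rw [← hSdef, hval]) hbU hbL
  exact this

theorem main {C : ℝ} (hC1 : 1 < C) (hC : C ≤ 7/5) (x : ℕ → ℝ)
    (h0 : 0 < x 0) (h1 : 0 < x 1) (h2 : 0 < x 2)
    (hx : ∀ n, x (n+3) = x n / (C * x (n+1) + x n)) :
    Tendsto x atTop (𝓝 (1 / (C+1))) := by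
  have hC0 : 0 < C := by linarith
  have hpos : ∀ n, 0 < x n := by
    intro n
    induction n using Nat.strong_induction_on with
    | _ n ih =>
      match n, ih with
      | 0, _ => exact h0
      | 1, _ => exact h1
      | 2, _ => exact h2
      | n+3, ih =>
        rw [hx n]
        have ha := ih n (by omega)
        have hb := ih (n+1) (by omega)
        positivity
  have hy : Tendsto (fun n => 1 / (C * x n)) atTop (𝓝 (1/C + 1)) := by
    apply conv (g := 1/C)
    · rw [le_div_iff₀ hC0]; linarith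
    · rw [div_lt_one hC0]; exact hC1
    · intro n
      have := hpos n
      positivity
    · intro n
      have ha := hpos n
      have hb := hpos (n+1)
      have hc := hpos (n+3)
      rw [hx n]
      field_simp
      ring
  have hlim : Tendsto (fun n => 1 / (C * (1 / (C * x n)))) atTop (𝓝 (1 / (C * (1/C + 1)))) := by
    apply Tendsto.div tendsto_const_nhds (hy.const_mul C)
    have : 0 < C * (1/C + 1) := by positivity
    exact this.ne'
  have e1 : (fun n => 1 / (C * (1 / (C * x n)))) = x := by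
    funext n
    have := hpos n
    field_simp
  have e2 : 1 / (C * (1/C + 1)) = 1 / (C + 1) := by
    have : C * (1/C + 1) = C + 1 := by field_simp; ring
    rw [this]
  rw [e1, e2] at hlim
  exact hlim

end H316RatDiff3
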